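import Pool.Agent.Lib.MP_0775d3_lc.Sl2.Statement

/-! Simultaneous diagonalization of the matrices of all class functions of a finite group. -/

set_option linter.unusedSectionVars false

namespace MP0775d3.Bd

open Matrix MP0775d3.Sl2

private lemma groupMat_comm {P : Type} [Group P] [Fintype P] {f h : P → ℂ} (hf : IsClassFun f) :
    groupMat f * groupMat h = groupMat h * groupMat f := by
  classical
  ext x y
  simp only [Matrix.mul_apply, groupMat, Matrix.of_apply]
  rw [← Equiv.sum_comp (Equiv.mulRight y) (fun z => f (x * z⁻¹) * h (z * y⁻¹))]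
  rw [← Equiv.sum_comp ((Equiv.inv P).trans (Equiv.mulRight x))
    (fun z => h (x * z⁻¹) * f (z * y⁻¹))]
  refine Finset.sum_congr rfl fun u _ => ?_
  simp only [Equiv.coe_mulRight, Equiv.trans_apply, Equiv.inv_apply]
  have e1 : u * y * y⁻¹ = u := by group
  have e2 : x * (u⁻¹ * x)⁻¹ = u := by group
  have e3 : f (x * (u * y)⁻¹) = f (u⁻¹ * x * y⁻¹) := by
    rw [← hf u (u⁻¹ * x * y⁻¹)]
    congr 1
    group
  rw [e1, e2, e3, mul_comm]

/-- PROOF. For `g : P` let `a g` be the indicator function of the conjugacy class of `g` plus that of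
`g⁻¹`, and `b g` be `i` times their difference. The matrices `groupMat (a g)`, `groupMat (b g)` are
Hermitian, and they commute: if `f` is a class function, `groupMat f * groupMat h =
groupMat h * groupMat f` for every `h` (substitution in `∑ z, f (x z⁻¹) h (z y⁻¹)`). So the space
`EuclideanSpace ℂ P` is the direct sum of the joint eigenspaces
(`LinearMap.IsSymmetric.directSum_isInternal_of_pairwise_commute`, index type `P × Bool`, or iterate
`Matrix.IsHermitian` diagonalization). Choose a basis adapted to this decomposition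
(`DirectSum.IsInternal.collectedBasis`), reindex it by `P`; the columns of `D` are its vectors,
`D' = D⁻¹`. Every class function is a combination of the `a g`, `b g`:
`f = ∑ g, f g / |class of g| * (a g - i * b g) / 2`. -/
theorem exists_diag (P : Type) [Group P] [Fintype P] [DecidableEq P] :
    ∃ D D' : Matrix P P ℂ, D * D' = 1 ∧ D' * D = 1 ∧
      ∀ f : P → ℂ, IsClassFun f → ∃ l : P → ℂ, groupMat f = D * Matrix.diagonal l * D' := by
  classical
  let n := {f : P → ℂ // IsClassFun f ∧ ∀ x, f x⁻¹ = star (f x)}
  let T : n → EuclideanSpace ℂ P →ₗ[ℂ] EuclideanSpace ℂ P :=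
    fun f => Matrix.toEuclideanLin (groupMat f.1)
  have hT : ∀ i, (T i).IsSymmetric := by
    intro i
    refine Matrix.isSymmetric_toEuclideanLin_iff.2 ?_
    ext x y
    rw [Matrix.conjTranspose_apply]
    show star (i.1 (y * x⁻¹)) = i.1 (x * y⁻¹)
    rw [← i.2.2]
    congr 1
    group
  have hC : Pairwise (Function.onFun Commute T) := by
    intro i j _
    show T i * T j = T j * T i
    ext v
    have h1 : ∀ i j : n, ∀ v, (T i * T j) v = Matrix.toEuclideanLin (groupMat i.1 * groupMat j.1) v := by
      intro i j v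
      show Matrix.toEuclideanLin (groupMat i.1) (Matrix.toEuclideanLin (groupMat j.1) v) = _
      simp only [Matrix.toEuclideanLin_apply, Matrix.mulVec_mulVec]
    rw [h1, h1, groupMat_comm i.2.1]
  have hint := LinearMap.IsSymmetric.directSum_isInternal_of_pairwise_commute hT hC
  let bb := hint.collectedBasis fun a => Module.finBasis ℂ
    (⨅ j, Module.End.eigenspace (T j) (a j) : Submodule ℂ (EuclideanSpace ℂ P))
  let bs : Module.Basis P ℂ (EuclideanSpace ℂ P) := (EuclideanSpace.basisFun P ℂ).toBasis
  let b : Module.Basis P ℂ (EuclideanSpace ℂ P) := bb.reindex (bb.indexEquiv bs)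
  have heig : ∀ (x : P), ∃ a : n → ℂ, ∀ j, T j (b x) = a j • b x := by
    intro x
    let s := (bb.indexEquiv bs).symm x
    refine ⟨s.1, fun j => ?_⟩
    have hb : b x = bb s := Module.Basis.reindex_apply _ _ _
    have hmem := hint.collectedBasis_mem (fun a => Module.finBasis ℂ
      (⨅ j, Module.End.eigenspace (T j) (a j) : Submodule ℂ (EuclideanSpace ℂ P))) s
    rw [Submodule.mem_iInf] at hmem
    rw [hb]
    exact Module.End.mem_eigenspace_iff.1 (hmem j)
  choose a ha using heig
  refine ⟨bs.toMatrix b, b.toMatrix bs, Module.Basis.toMatrix_mul_toMatrix_flip _ _,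
    Module.Basis.toMatrix_mul_toMatrix_flip _ _, ?_⟩
  have hherm : ∀ j : n, groupMat j.1 =
      bs.toMatrix b * Matrix.diagonal (fun x => a x j) * b.toMatrix bs := by
    intro j
    have h2 : groupMat j.1 * bs.toMatrix b = bs.toMatrix b * Matrix.diagonal (fun x => a x j) := by
      ext y x
      rw [Matrix.mul_diagonal, Matrix.mul_apply]
      have h3 : ∀ z, bs.toMatrix b z x = (b x) z := by
        intro z
        rw [Module.Basis.toMatrix_apply]
        rfl
      simp only [h3]
      have h4 := congrArg (fun v : EuclideanSpace ℂ P => v y) (ha x j)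
      simp only [T, Matrix.toEuclideanLin_apply] at h4
      rw [mul_comm]
      exact h4
    rw [← h2, Matrix.mul_assoc, Module.Basis.toMatrix_mul_toMatrix_flip, Matrix.mul_one]
  intro f hf
  let f1 : n := ⟨fun x => (f x + star (f x⁻¹)) / 2, by
    constructor
    · intro g x
      have e : (g * x * g⁻¹)⁻¹ = g * x⁻¹ * g⁻¹ := by group
      show (f (g * x * g⁻¹) + star (f (g * x * g⁻¹)⁻¹)) / 2 = _
      rw [e, hf, hf]
    · intro x
      show (f x⁻¹ + star (f x⁻¹⁻¹)) / 2 = star ((f x + star (f x⁻¹)) / 2)
      rw [inv_inv, star_div₀, star_add, star_star, add_comm]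
      simp⟩
  let f2 : n := ⟨fun x => (f x - star (f x⁻¹)) / (2 * Complex.I), by
    constructor
    · intro g x
      have e : (g * x * g⁻¹)⁻¹ = g * x⁻¹ * g⁻¹ := by group
      show (f (g * x * g⁻¹) - star (f (g * x * g⁻¹)⁻¹)) / (2 * Complex.I) = _
      rw [e, hf, hf]
    · intro x
      show (f x⁻¹ - star (f x⁻¹⁻¹)) / (2 * Complex.I) =
        star ((f x - star (f x⁻¹)) / (2 * Complex.I))
      rw [inv_inv, star_div₀, star_sub, star_star]
      have : star (2 * Complex.I) = -(2 * Complex.I) := by simp
      rw [this, div_neg, ← neg_div, neg_sub]⟩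
  have hsum : groupMat f = groupMat f1.1 + Complex.I • groupMat f2.1 := by
    ext x y
    simp only [groupMat, Matrix.of_apply, Matrix.add_apply, Matrix.smul_apply, smul_eq_mul, f1, f2]
    have hI : Complex.I ≠ 0 := Complex.I_ne_zero
    field_simp
    ring
  refine ⟨fun x => a x f1 + Complex.I * a x f2, ?_⟩
  rw [hsum, hherm f1, hherm f2]
  have hd : Matrix.diagonal (fun x => a x f1 + Complex.I * a x f2) =
      Matrix.diagonal (fun x => a x f1) + Complex.I • Matrix.diagonal (fun x => a x f2) := by
    ext x y
    by_cases h : x = y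
    · subst h; simp
    · simp [h]
  rw [hd, Matrix.mul_add, Matrix.add_mul, Matrix.mul_smul, Matrix.smul_mul]

end MP0775d3.Bd
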