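import Pool.Agent.Lib.MP_0775d3_lc.Sl2.Rect
import Pool.Agent.Lib.MP_0775d3_lc.Kron.Circ
import Pool.Agent.Lib.MP_0775d3_lc.Kron.Fib

/-! Kronecker products of matrices of bounded size. -/

set_option linter.unusedSectionVars false

namespace MP0775d3.Bd

open Matrix MP0775d3.Kron MP0775d3.Sl2

/-- PROOF. Let `n` be the size of the product, `L = logSize I = log n`. If `L = 0` the matrix is
`1 × 1`: sparse with `1 ≤ C n ^ δ`. Otherwise `dec_kron` with `η = log (B + 2) / L`, `N` with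
`128 ≤ δ 2 ^ N`: rank at most `128 exp (-(κ / log (B + 2)) L) n = 128 n ^ (1 - γ)` with
`γ = κ / log (B + 2)`, `κ = (δ / (256 (N + 1))) ^ 2` (take the minimum with `1`); sparsity
`exp (δ L) = n ^ δ`. `rdec_of_dec`. Compare `small_dec` in `Kron/Combine.lean`. -/
theorem kron_bound (B : ℕ) (δ : ℝ) (hδ : 0 < δ) (hδ1 : δ ≤ 1) : ∃ γ : ℝ, 0 < γ ∧ γ ≤ 1 ∧
    ∃ C : ℝ, 1 ≤ C ∧ ∀ (ι : Type) [Fintype ι] [DecidableEq ι] (I : ι → Type)
      [∀ i, Fintype (I i)] [∀ i, DecidableEq (I i)]
      (_ : ∀ i, 0 < Fintype.card (I i) ∧ Fintype.card (I i) ≤ B)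
      (M : ∀ i, Matrix (I i) (I i) ℂ),
      RDec (kron M) (C * (Fintype.card (∀ i, I i) : ℝ) ^ (1 - γ))
        (C * (Fintype.card (∀ i, I i) : ℝ) ^ δ) := by
  obtain ⟨N, hN⟩ := pow_unbounded_of_one_lt (128 / δ) (one_lt_two : (1 : ℝ) < 2)
  have hN' : 128 ≤ δ * 2 ^ N := by
    rw [div_lt_iff₀ hδ] at hN
    linarith
  set κ : ℝ := (δ / (256 * (N + 1))) ^ 2 with hκ
  have hκ0 : 0 < κ := by rw [hκ]; positivity
  set lb : ℝ := Real.log (B + 2) with hlb
  have hlb0 : 0 < lb := by
    apply Real.log_pos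
    have : (0 : ℝ) ≤ B := Nat.cast_nonneg _
    linarith
  refine ⟨min 1 (κ / lb), lt_min one_pos (div_pos hκ0 hlb0), min_le_left _ _, 128, by norm_num, ?_⟩
  intro ι _ _ I _ _ hI M
  set γ := min 1 (κ / lb) with hγ
  have hc : ∀ i, (1 : ℝ) ≤ (Fintype.card (I i) : ℝ) := fun i => by
    exact_mod_cast (hI i).1
  have hn : (Fintype.card (∀ i, I i) : ℝ) = Real.exp (logSize I) := by
    unfold logSize
    rw [Real.exp_sum, Fintype.card_pi]
    push_cast
    refine Finset.prod_congr rfl fun j _ => ?_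
    rw [Real.exp_log]
    linarith [hc j]
  have hL0 : 0 ≤ logSize I := by
    unfold logSize
    exact Finset.sum_nonneg fun i _ => Real.log_nonneg (hc i)
  have hpow : ∀ a : ℝ, (Fintype.card (∀ i, I i) : ℝ) ^ a = Real.exp (a * logSize I) := by
    intro a
    rw [hn, ← Real.exp_mul, mul_comm]
  rw [hpow, hpow]
  rcases hL0.eq_or_lt with h | h
  · refine RDec.mono (rdec_of_dec (dec_triv' (kron M))) (by positivity) ?_
    rw [hn, ← h, mul_zero, Real.exp_zero]
    norm_num
  · have d := dec_kron M (lb / logSize I) (div_pos hlb0 h) δ N hδ hδ1 hN' h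
      (fun i => by
        rw [div_mul_cancel₀ _ h.ne']
        apply Real.log_le_log (by linarith [hc i])
        have : (Fintype.card (I i) : ℝ) ≤ B := by exact_mod_cast (hI i).2
        linarith)
    refine RDec.mono (rdec_of_dec d) ?_ ?_
    · rw [← hκ, hn, mul_assoc, ← Real.exp_add]
      refine mul_le_mul_of_nonneg_left (Real.exp_le_exp.mpr ?_) (by norm_num)
      have h1 : κ / (lb / logSize I) = κ / lb * logSize I := by field_simp
      rw [h1]
      have h2 : γ * logSize I ≤ κ / lb * logSize I :=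
        mul_le_mul_of_nonneg_right (min_le_right _ _) hL0
      linarith
    · have := Real.exp_pos (δ * logSize I)
      linarith

end MP0775d3.Bd
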