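import Pool.Agent.Lib.MP_0775d3_lc.Sl2.Rect
import Pool.Agent.Lib.MP_0775d3_lc.Kron.Circ
import Pool.Agent.Lib.MP_0775d3_lc.Kron.Fib

/-! Kronecker products of matrices of size at most `n ^ η`. -/

set_option linter.unusedSectionVars false

namespace MP0775d3.Bd

open Matrix MP0775d3.Kron MP0775d3.Sl2

theorem kron_eta (δ : ℝ) (hδ : 0 < δ) (hδ1 : δ ≤ 1) : ∃ c : ℝ, 0 < c ∧
    ∀ (η : ℝ), 0 < η → ∀ (n : ℝ), 1 < n →
    ∀ (ι : Type) [Fintype ι] [DecidableEq ι] (I : ι → Type)
      [∀ i, Fintype (I i)] [∀ i, DecidableEq (I i)]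
      (_ : ∀ i, 0 < Fintype.card (I i) ∧ (Fintype.card (I i) : ℝ) ≤ n ^ η)
      (_ : (Fintype.card (∀ i, I i) : ℝ) ≤ n)
      (M : ∀ i, Matrix (I i) (I i) ℂ),
      RDec (kron M) (128 * Real.exp (-(c / η)) * Fintype.card (∀ i, I i)) (n ^ δ) := by
  obtain ⟨N, hN⟩ : ∃ N : ℕ, 128 ≤ δ * 2 ^ N := by
    obtain ⟨N, hN⟩ := pow_unbounded_of_one_lt (128 / δ) (one_lt_two : (1 : ℝ) < 2)
    refine ⟨N, ?_⟩
    rw [div_lt_iff₀ hδ] at hN
    linarith
  set κ : ℝ := (δ / (256 * (N + 1))) ^ 2 with hκ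
  have hκ0 : 0 < κ := by positivity
  refine ⟨κ * δ, by positivity, ?_⟩
  intro η hη n hn ι _ _ I _ _ hI hcard M
  have hn0 : 0 < n := by linarith
  have hlog : 0 < Real.log n := Real.log_pos hn
  have hsz : (Fintype.card (∀ i, I i) : ℝ) = Real.exp (logSize I) := by
    rw [logSize, Real.exp_sum, Fintype.card_pi]
    push_cast
    refine Finset.prod_congr rfl fun j _ => ?_
    rw [Real.exp_log]
    exact_mod_cast (hI j).1
  have hL : logSize I ≤ Real.log n := by
    rw [hsz] at hcard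
    have := Real.log_le_log (Real.exp_pos _) hcard
    rwa [Real.log_exp] at this
  have hlogI : ∀ i, Real.log (Fintype.card (I i)) ≤ η * Real.log n := by
    intro i
    have h1 := Real.log_le_log (by exact_mod_cast (hI i).1) (hI i).2
    rwa [Real.log_rpow hn0] at h1
  have hnδ : n ^ δ = Real.exp (δ * Real.log n) := by
    rw [Real.rpow_def_of_pos hn0, mul_comm]
  apply rdec_of_dec
  rcases le_or_gt (logSize I) (δ * Real.log n) with h | h
  · refine (dec_triv' (kron M)).mono (by positivity) ?_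
    rw [hsz, hnδ]
    exact Real.exp_le_exp.mpr h
  · have hpos : 0 < logSize I := lt_of_le_of_lt (by positivity) h
    have d := dec_kron M (η * Real.log n / logSize I) (by positivity) δ N hδ hδ1 hN hpos
      (fun i => by
        rw [div_mul_cancel₀ _ hpos.ne']
        exact hlogI i)
    rw [← hκ] at d
    refine d.mono ?_ ?_
    · refine mul_le_mul_of_nonneg_right (mul_le_mul_of_nonneg_left (Real.exp_le_exp.mpr ?_)
        (by norm_num)) (Nat.cast_nonneg _)
      apply neg_le_neg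
      rw [div_div_eq_mul_div, div_le_div_iff₀ hη (by positivity)]
      have := mul_le_mul_of_nonneg_left h.le (show 0 ≤ κ * η by positivity)
      nlinarith
    · rw [hnδ]
      apply Real.exp_le_exp.mpr
      exact mul_le_mul_of_nonneg_left hL hδ.le

end MP0775d3.Bd
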