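import Pool.Agent.Lib.MP_0775d3_lc.Bd.Diag
import Pool.Agent.Lib.MP_0775d3_lc.Bd.KronBound
import Pool.Agent.Lib.MP_0775d3_lc.Sl2H.HGroup
import Pool.Agent.Lib.MP_0775d3_lc.Solv.Blocks

/-! Peeling off a product of groups of bounded order. -/

set_option linter.unusedSectionVars false

namespace MP0775d3.Bd

open Matrix MP0775d3.Kron MP0775d3.Sl2 MP0775d3.Sl2H

/-- A representative of the conjugacy class. -/
private noncomputable def crep {P : Type} [Group P] (a : P) : P :=
  Quotient.out (ConjClasses.mk a)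

private theorem crep_conj {P : Type} [Group P] (a : P) : IsConj a (crep a) := by
  have h : ConjClasses.mk (crep a) = ConjClasses.mk a := Quotient.out_eq _
  exact (ConjClasses.mk_eq_mk_iff_isConj.mp h).symm

private theorem crep_eq {P : Type} [Group P] (g a : P) : crep (g * a * g⁻¹) = crep a := by
  have h : ConjClasses.mk (g * a * g⁻¹) = ConjClasses.mk a :=
    ConjClasses.mk_eq_mk_iff_isConj.mpr (isConj_iff.mpr ⟨g⁻¹, by group⟩)
  unfold crep
  rw [h]

/-- The indicator function of a conjugacy class. -/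
private noncomputable def cind {P : Type} [Group P] [DecidableEq P] (a y : P) : ℂ :=
  if a = crep y then 1 else 0

private theorem cind_class {P : Type} [Group P] [DecidableEq P] (a : P) :
    IsClassFun (cind a) := by
  intro g x
  unfold cind
  rw [crep_eq]

private theorem expand {ι : Type} [Fintype ι] [DecidableEq ι] (P : ι → Type) [∀ i, Group (P i)]
    [∀ i, Fintype (P i)] [∀ i, DecidableEq (P i)] (f : (∀ i, P i) → ℂ) (hf : IsClassFun f)
    (y : ∀ i, P i) : f y = ∑ z : ∀ i, P i, f z * ∏ i, cind (z i) (y i) := by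
  rw [Finset.sum_eq_single (fun i => crep (y i))]
  · have h1 : ∏ i, cind (crep (y i)) (y i) = 1 := by
      refine Finset.prod_eq_one fun i _ => ?_
      unfold cind
      rw [if_pos rfl]
    rw [h1, mul_one]
    have h2 : ∀ i, ∃ c : P i, c * y i * c⁻¹ = crep (y i) := fun i =>
      isConj_iff.mp (crep_conj (y i))
    choose c hc using h2
    have h3 : (fun i => crep (y i)) = c * y * c⁻¹ := by
      funext i
      rw [← hc i]
      rfl
    rw [h3]
    exact (hf c y).symm
  · intro z _ hz
    have h4 : ∃ i, z i ≠ crep (y i) := by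
      by_contra hcon
      push Not at hcon
      exact hz (funext hcon)
    obtain ⟨i, hi⟩ := h4
    rw [Finset.prod_eq_zero (Finset.mem_univ i), mul_zero]
    unfold cind
    rw [if_neg hi]
  · intro hc
    exact absurd (Finset.mem_univ _) hc

private theorem kron_diag {ι : Type} [Fintype ι] [DecidableEq ι] (P : ι → Type)
    [∀ i, Fintype (P i)] [∀ i, DecidableEq (P i)] (l : ∀ i, P i → ℂ) :
    kron (fun i => Matrix.diagonal (l i)) = Matrix.diagonal fun x => ∏ i, l i (x i) := by
  ext x y
  by_cases h : x = y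
  · subst h
    rw [Matrix.diagonal_apply_eq]
    exact Finset.prod_congr rfl fun i _ => Matrix.diagonal_apply_eq (l i) (x i)
  · rw [Matrix.diagonal_apply_ne _ h]
    have h4 : ∃ i, x i ≠ y i := by
      by_contra hcon
      push Not at hcon
      exact h (funext hcon)
    obtain ⟨i, hi⟩ := h4
    exact Finset.prod_eq_zero (Finset.mem_univ i) (Matrix.diagonal_apply_ne (l i) hi)

/-- PROOF. `f y = ∑ x, f x * ∏ i, [y i conjugate to x i] / |class of x i|`, so that `groupMat f` is the
combination with coefficients `f x / ∏ i, |class of x i|` of the Kronecker products of the matrices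
`groupMat (indicator of the class of x i) = D i * diagonal (l x i) * D' i`, and
`kron (D i * Λ i * D' i) = kron D * kron Λ * kron D'` (`kron_mul`), where `kron` of diagonal matrices
is diagonal. -/
theorem diag_pi {ι : Type} [Fintype ι] [DecidableEq ι] (P : ι → Type) [∀ i, Group (P i)]
    [∀ i, Fintype (P i)] [∀ i, DecidableEq (P i)] (D D' : ∀ i, Matrix (P i) (P i) ℂ)
    (h : ∀ i (f : P i → ℂ), IsClassFun f →
      ∃ l : P i → ℂ, groupMat f = D i * Matrix.diagonal l * D' i)
    (f : (∀ i, P i) → ℂ) (hf : IsClassFun f) :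
    ∃ l : (∀ i, P i) → ℂ, groupMat f = kron D * Matrix.diagonal l * kron D' := by
  have h1 : ∀ i (a : P i), ∃ l : P i → ℂ, groupMat (cind a) = D i * Matrix.diagonal l * D' i :=
    fun i a => h i (cind a) (cind_class a)
  choose l hl using h1
  refine ⟨fun x => ∑ z : ∀ i, P i, f z * ∏ i, l i (z i) (x i), ?_⟩
  have h2 : groupMat f = ∑ z : ∀ i, P i, f z • kron (fun i => groupMat (cind (z i))) := by
    ext x y
    rw [Matrix.sum_apply]
    unfold groupMat
    rw [Matrix.of_apply, expand P f hf]
    refine Finset.sum_congr rfl fun z _ => ?_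
    rw [Matrix.smul_apply, smul_eq_mul]
    rfl
  have h3 : ∀ z : ∀ i, P i, kron (fun i => groupMat (cind (z i))) =
      kron D * Matrix.diagonal (fun x => ∏ i, l i (z i) (x i)) * kron D' := by
    intro z
    have h4 : (fun i => groupMat (cind (z i))) =
        fun i => D i * Matrix.diagonal (l i (z i)) * D' i := funext fun i => hl i (z i)
    rw [h4, kron_mul (fun i => D i * Matrix.diagonal (l i (z i))) D',
      kron_mul D (fun i => Matrix.diagonal (l i (z i))), kron_diag]
  have h5 : (Matrix.diagonal fun x : ∀ i, P i => ∑ z : ∀ i, P i, f z * ∏ i, l i (z i) (x i)) =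
      ∑ z : ∀ i, P i, f z • Matrix.diagonal (fun x : ∀ i, P i => ∏ i, l i (z i) (x i)) := by
    ext x y
    rw [Matrix.sum_apply]
    by_cases hxy : x = y
    · subst hxy
      simp only [Matrix.smul_apply, Matrix.diagonal_apply_eq, smul_eq_mul]
    · simp only [Matrix.smul_apply, Matrix.diagonal_apply_ne _ hxy, smul_zero,
        Finset.sum_const_zero]
  rw [h2, h5, Matrix.mul_sum, Matrix.sum_mul]
  refine Finset.sum_congr rfl fun z _ => ?_
  rw [h3 z, Matrix.mul_smul, Matrix.smul_mul]

/-- PROOF. `D i`, `D' i` from `exists_diag`, `diag_pi`. For a class function `f` on `(∀ i, P i) × H`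
and `u : H` the function `f (·, u)` is a class function; `l u` from `diag_pi`, chosen as a function of
`f (·, u)`, so the same for `u` and `v u v⁻¹`. `groupMat f = hmat (fun u => groupMat (f (·, u)))`
`= hone H (kron D) * hmat (fun u => diagonal (l u)) * hone H (kron D')` (`hmat_mul`). The middle
factor is block diagonal over `p : ∀ i, P i` with blocks `groupMat (fun u => l u p)`, class functions
on `H`: rank at most `|P| |H| ρ` (sum over `p` of matrices supported on `{p} × H`, or `rdec_blocks`
of `Solv/Blocks.lean`), sparsity `τ`. `kron_bound` for `δ / 2`, `hone_rdec`. -/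
theorem peel_bd (B : ℕ) (δ : ℝ) (hδ : 0 < δ) (hδ1 : δ ≤ 1) : ∃ γ : ℝ, 0 < γ ∧ γ ≤ 1 ∧
    ∃ C : ℝ, 1 ≤ C ∧ ∀ (ι : Type) [Finite ι] (P : ι → Type) [∀ i, Group (P i)]
      [∀ i, Finite (P i)] (_ : ∀ i, Nat.card (P i) ≤ B) (H : Type) [Group H] [Finite H]
      (ρ τ : ℝ) (_ : 0 ≤ ρ) (_ : 0 ≤ τ) (_ : GBound H (Nat.card H * ρ) τ),
      GBound ((∀ i, P i) × H)
        (C * (Nat.card (∀ i, P i) * Nat.card H * ((Nat.card (∀ i, P i) : ℝ) ^ (-γ) + ρ)))
        (C * ((Nat.card (∀ i, P i) : ℝ) ^ δ * τ)) := by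
  classical
  obtain ⟨γ, hγ, hγ1, C, hC, hmain⟩ := kron_bound B (δ / 2) (by linarith) (by linarith)
  refine ⟨γ, hγ, hγ1, 2 * C ^ 2, by nlinarith, ?_⟩
  intro ι _ P _ _ hP H _ _ ρ τ hρ hτ hH
  have : Fintype ι := Fintype.ofFinite ι
  have : ∀ i, Fintype (P i) := fun i => Fintype.ofFinite (P i)
  have : Fintype H := Fintype.ofFinite H
  intro inst f hf
  obtain rfl : inst = instFintypeProd _ _ := Subsingleton.elim _ _
  choose D D' hDD hD'D hdiag using fun i => exists_diag (P i)
  have hd := diag_pi P D D' hdiag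
  set L : ((∀ i, P i) → ℂ) → ((∀ i, P i) → ℂ) :=
    fun g => if h : IsClassFun g then Classical.choose (hd g h) else 0 with hL
  have hLs : ∀ g, IsClassFun g → groupMat g = kron D * Matrix.diagonal (L g) * kron D' := by
    intro g hg
    simp only [hL]
    rw [dif_pos hg]
    exact Classical.choose_spec (hd g hg)
  set l : H → (∀ i, P i) → ℂ := fun u => L (fun p => f (p, u)) with hl
  have hclass : ∀ u : H, IsClassFun (fun p => f (p, u)) := by
    intro u g x
    have := hf (g, 1) (x, u)
    simpa using this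
  have hconj : ∀ v u : H, l (v * u * v⁻¹) = l u := by
    intro v u
    simp only [hl]
    congr 1
    funext p
    have := hf (1, v) (p, u)
    simpa using this
  have e1 : groupMat f = hmat (fun u => groupMat (fun p => f (p, u))) := by
    ext x y
    rfl
  have e2 : (fun u : H => groupMat (fun p => f (p, u))) =
      fun u => kron D * Matrix.diagonal (l u) * kron D' :=
    funext fun u => hLs _ (hclass u)
  set n : ℝ := (Nat.card (∀ i, P i) : ℝ) with hn
  have hcard : (Fintype.card (∀ i, P i) : ℝ) = n := by rw [hn, Nat.card_eq_fintype_card]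
  have hn1 : 1 ≤ n := by
    have : 0 < Nat.card (∀ i, P i) := Nat.card_pos
    rw [hn]
    exact_mod_cast this
  have hn0 : 0 < n := by linarith
  have hI : ∀ i, 0 < Fintype.card (P i) ∧ Fintype.card (P i) ≤ B := by
    intro i
    refine ⟨Fintype.card_pos, ?_⟩
    rw [← Nat.card_eq_fintype_card]
    exact hP i
  have hnn : (0 : ℝ) ≤ C * n ^ (δ / 2) := by positivity
  have hk : ∀ M : ∀ i, Matrix (P i) (P i) ℂ,
      RDec (hone H (kron M)) (Nat.card H * (C * n ^ (1 - γ))) (C * n ^ (δ / 2)) := by
    intro M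
    have h1 := hmain ι P hI M
    rw [hcard] at h1
    exact hone_rdec h1 hnn
  have hmid : RDec (hmat fun u => Matrix.diagonal (l u)) (n * (Nat.card H * ρ)) τ := by
    have h1 := MP0775d3.Solv.rdec_blocks' (F := ℂ) (ι := ∀ i, P i)
      (hmat fun u => Matrix.diagonal (l u))
      (Prod.fst : (∀ i, P i) × H → ∀ i, P i) (Prod.fst : (∀ i, P i) × H → ∀ i, P i) ?_
      (fun _ => Nat.card H * ρ) τ hτ (fun _ => H) (fun _ => H)
      (fun p => groupMat fun u => l u p) ?_ (fun _ x => x.2) (fun _ x => x.2) ?_ ?_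
      (fun _ => 1) (fun _ => 1) ?_
    · rw [Finset.sum_const, Finset.card_univ, nsmul_eq_mul, hcard] at h1
      exact h1
    · intro x y hxy
      exact Matrix.diagonal_apply_ne _ hxy
    · intro p
      refine hH _ ?_
      intro g x
      show l (g * x * g⁻¹) p = l x p
      rw [hconj]
    · intro i x x' h1 h2 h3
      exact Prod.ext (h1.trans h2.symm) h3
    · intro i x x' h1 h2 h3
      exact Prod.ext (h1.trans h2.symm) h3
    · rintro p ⟨x1, x2⟩ ⟨y1, y2⟩ h1 h2
      simp only at h1 h2
      subst h1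
      subst h2
      show (Matrix.diagonal (l (x2 * y2⁻¹)) : Matrix (∀ i, P i) (∀ i, P i) ℂ) y1 y1 =
        1 * l (x2 * y2⁻¹) y1 * 1
      rw [Matrix.diagonal_apply_eq]
      ring
  have hprod := ((hk D).mul hnn hτ hmid).mul (mul_nonneg hnn hτ) hnn (hk D')
  rw [e1, e2, hmat_mul]
  refine hprod.mono ?_ ?_
  · have e3 : n ^ (1 - γ) = n * n ^ (-γ) := by
      rw [sub_eq_add_neg, Real.rpow_add hn0, Real.rpow_one]
    rw [e3]
    have hg0 : 0 ≤ n ^ (-γ) := by positivity
    have hH0 : (0 : ℝ) ≤ Nat.card H := Nat.cast_nonneg _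
    have hC2 : C ≤ C ^ 2 := by nlinarith
    have h1 : (0 : ℝ) ≤ n * Nat.card H * n ^ (-γ) := by positivity
    have h2 : (0 : ℝ) ≤ n * Nat.card H * ρ := by positivity
    have h3 : 2 * C * (n * Nat.card H * n ^ (-γ)) ≤ 2 * C ^ 2 * (n * Nat.card H * n ^ (-γ)) :=
      mul_le_mul_of_nonneg_right (by linarith) h1
    have h4 : 1 * (n * Nat.card H * ρ) ≤ 2 * C ^ 2 * (n * Nat.card H * ρ) :=
      mul_le_mul_of_nonneg_right (by nlinarith) h2
    nlinarith
  · have e4 : n ^ δ = n ^ (δ / 2) * n ^ (δ / 2) := by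
      rw [← Real.rpow_add hn0]
      congr 1
      ring
    rw [e4]
    have h1 : (0 : ℝ) ≤ C ^ 2 * (n ^ (δ / 2) * n ^ (δ / 2) * τ) := by positivity
    nlinarith

end MP0775d3.Bd
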