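import Pool.Agent.Lib.MP_0775d3_lc.Bd.PeelBd
import Pool.Agent.Lib.MP_0775d3_lc.Bd.KronEta

/-! Peeling off a product of groups of order at most `n ^ η`. -/

set_option linter.unusedSectionVars false

namespace MP0775d3.Bd

open Matrix MP0775d3.Kron MP0775d3.Sl2 MP0775d3.Sl2H

theorem peel_eta (δ : ℝ) (hδ : 0 < δ) (hδ1 : δ ≤ 1) : ∃ c : ℝ, 0 < c ∧
    ∀ (η : ℝ), 0 < η → ∀ (N : ℝ), 1 < N →
    ∀ (ι : Type) [Finite ι] (P : ι → Type) [∀ i, Group (P i)]
      [∀ i, Finite (P i)] (_ : ∀ i, (Nat.card (P i) : ℝ) ≤ N ^ η)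
      (_ : (Nat.card (∀ i, P i) : ℝ) ≤ N) (H : Type) [Group H] [Finite H]
      (ρ τ : ℝ) (_ : 0 ≤ ρ) (_ : 0 ≤ τ) (_ : GBound H (Nat.card H * ρ) τ),
      GBound ((∀ i, P i) × H)
        (Nat.card (∀ i, P i) * Nat.card H * (256 * Real.exp (-(c / η)) + ρ))
        (N ^ δ * τ) := by
  classical
  obtain ⟨c, hc, hmain⟩ := kron_eta (δ / 2) (by linarith) (by linarith)
  refine ⟨c, hc, ?_⟩
  intro η hη N hN ι _ P _ _ hP hPN H _ _ ρ τ hρ hτ hH
  have : Fintype ι := Fintype.ofFinite ι
  have : ∀ i, Fintype (P i) := fun i => Fintype.ofFinite (P i)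
  have : Fintype H := Fintype.ofFinite H
  intro inst f hf
  obtain rfl : inst = instFintypeProd _ _ := Subsingleton.elim _ _
  choose D D' hDD hD'D hdiag using fun i => exists_diag (P i)
  have hd := diag_pi P D D' hdiag
  set L : ((∀ i, P i) → ℂ) → ((∀ i, P i) → ℂ) :=
    fun g => if h : IsClassFun g then Classical.choose (hd g h) else 0 with hL
  have hLs : ∀ g, IsClassFun g → groupMat g = kron D * Matrix.diagonal (L g) * kron D' := by
    intro g hg
    simp only [hL]
    rw [dif_pos hg]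
    exact Classical.choose_spec (hd g hg)
  set l : H → (∀ i, P i) → ℂ := fun u => L (fun p => f (p, u)) with hl
  have hclass : ∀ u : H, IsClassFun (fun p => f (p, u)) := by
    intro u g x
    have := hf (g, 1) (x, u)
    simpa using this
  have hconj : ∀ v u : H, l (v * u * v⁻¹) = l u := by
    intro v u
    simp only [hl]
    congr 1
    funext p
    have := hf (1, v) (p, u)
    simpa using this
  have e1 : groupMat f = hmat (fun u => groupMat (fun p => f (p, u))) := by
    ext x y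
    rfl
  have e2 : (fun u : H => groupMat (fun p => f (p, u))) =
      fun u => kron D * Matrix.diagonal (l u) * kron D' :=
    funext fun u => hLs _ (hclass u)
  set n : ℝ := (Nat.card (∀ i, P i) : ℝ) with hn
  have hcard : (Fintype.card (∀ i, P i) : ℝ) = n := by rw [hn, Nat.card_eq_fintype_card]
  have hn1 : 1 ≤ n := by
    have : 0 < Nat.card (∀ i, P i) := Nat.card_pos
    rw [hn]
    exact_mod_cast this
  have hn0 : 0 < n := by linarith
  have hI : ∀ i, 0 < Fintype.card (P i) ∧ (Fintype.card (P i) : ℝ) ≤ N ^ η := by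
    intro i
    refine ⟨Fintype.card_pos, ?_⟩
    rw [← Nat.card_eq_fintype_card]
    exact hP i
  have hN0 : 0 < N := by linarith
  have hnn : (0 : ℝ) ≤ N ^ (δ / 2) := by positivity
  have hk : ∀ M : ∀ i, Matrix (P i) (P i) ℂ,
      RDec (hone H (kron M)) (Nat.card H * (128 * Real.exp (-(c / η)) * n)) (N ^ (δ / 2)) := by
    intro M
    have h1 := hmain η hη N hN ι P hI (by rw [hcard]; exact hPN) M
    rw [hcard] at h1
    exact hone_rdec h1 hnn
  have hmid : RDec (hmat fun u => Matrix.diagonal (l u)) (n * (Nat.card H * ρ)) τ := by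
    have h1 := MP0775d3.Solv.rdec_blocks' (F := ℂ) (ι := ∀ i, P i)
      (hmat fun u => Matrix.diagonal (l u))
      (Prod.fst : (∀ i, P i) × H → ∀ i, P i) (Prod.fst : (∀ i, P i) × H → ∀ i, P i) ?_
      (fun _ => Nat.card H * ρ) τ hτ (fun _ => H) (fun _ => H)
      (fun p => groupMat fun u => l u p) ?_ (fun _ x => x.2) (fun _ x => x.2) ?_ ?_
      (fun _ => 1) (fun _ => 1) ?_
    · rw [Finset.sum_const, Finset.card_univ, nsmul_eq_mul, hcard] at h1
      exact h1
    · intro x y hxy
      exact Matrix.diagonal_apply_ne _ hxy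
    · intro p
      refine hH _ ?_
      intro g x
      show l (g * x * g⁻¹) p = l x p
      rw [hconj]
    · intro i x x' h1 h2 h3
      exact Prod.ext (h1.trans h2.symm) h3
    · intro i x x' h1 h2 h3
      exact Prod.ext (h1.trans h2.symm) h3
    · rintro p ⟨x1, x2⟩ ⟨y1, y2⟩ h1 h2
      simp only at h1 h2
      subst h1
      subst h2
      show (Matrix.diagonal (l (x2 * y2⁻¹)) : Matrix (∀ i, P i) (∀ i, P i) ℂ) y1 y1 =
        1 * l (x2 * y2⁻¹) y1 * 1
      rw [Matrix.diagonal_apply_eq]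
      ring
  have hprod := ((hk D).mul hnn hτ hmid).mul (mul_nonneg hnn hτ) hnn (hk D')
  rw [e1, e2, hmat_mul]
  refine hprod.mono (le_of_eq ?_) (le_of_eq ?_)
  · ring
  · have e4 : N ^ δ = N ^ (δ / 2) * N ^ (δ / 2) := by
      rw [← Real.rpow_add hN0]
      congr 1
      ring
    rw [e4]
    ring

end MP0775d3.Bd
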